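import Mathlib

/-!
# The reflexive closure of a Lie algebra of operators is a Lie algebra

Let `V` be a finite-dimensional vector space over `ℝ` or `ℂ` and let `D` be a space of linear
operators of `V` which is closed under the commutator. The space of all operators `T` such that
`T x ∈ D x` for all `x` is closed under the commutator.
-/

set_option autoImplicit false

namespace Pool.Agent.Q117.LocD

open NormedSpace

section Exp

variable {𝕜 : Type*} [RCLike 𝕜] {E : Type*} [NormedRing E] [NormedAlgebra 𝕜 E] [CompleteSpace E]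

include 𝕜 in
theorem exp_mul_exp_neg (x : E) : exp x * exp (-x) = 1 := by
  let _ : NormedAlgebra ℚ E := NormedAlgebra.restrictScalars ℚ 𝕜 E
  rw [← exp_add_of_commute (Commute.neg_right (Commute.refl x)), add_neg_cancel, exp_zero]

include 𝕜 in
theorem exp_neg_mul_exp (x : E) : exp (-x) * exp x = 1 := by
  have := exp_mul_exp_neg (𝕜 := 𝕜) (-x)
  rwa [neg_neg] at this

theorem hasDerivAt_exp_neg (d : E) (t : 𝕜) :
    HasDerivAt (fun u : 𝕜 => exp (-(u • d))) (-(d * exp (-(t • d)))) t := by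
  have h := hasDerivAt_exp_smul_const' (𝕂 := 𝕜) (-d) t
  simp only [smul_neg, neg_mul] at h
  exact h

theorem exists_flow {V : Type*} [NormedAddCommGroup V] [NormedSpace 𝕜 V] [CompleteSpace V]
    (A : V →L[𝕜] V) (y : V) : ∃ z : 𝕜 → V, z 0 = y ∧ ∀ t, HasDerivAt z (A (z t)) t := by
  refine ⟨fun t => exp (t • A) y, by simp, fun t => ?_⟩
  have h1 : HasDerivAt (fun u : 𝕜 => exp (u • A)) (A * exp (t • A)) t :=
    hasDerivAt_exp_smul_const' (𝕂 := 𝕜) A t
  refine (h1.clm_apply (hasDerivAt_const t y)).congr_deriv ?_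
  simp

/-- If `D` is invariant under the commutator with `d`, then it is invariant under the conjugation
by `exp (t d)`. -/
theorem conj_mem (D : Submodule 𝕜 E) [FiniteDimensional 𝕜 D] (d : E)
    (h : ∀ y ∈ D, y * d - d * y ∈ D) {y : E} (hy : y ∈ D) (t : 𝕜) :
    exp (-(t • d)) * y * exp (t • d) ∈ D := by
  have : CompleteSpace D := FiniteDimensional.complete 𝕜 D
  let A0 : D →ₗ[𝕜] D :=
    { toFun := fun z => ⟨z.1 * d - d * z.1, h z.1 z.2⟩
      map_add' := fun x z => by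
        apply Subtype.ext
        show (x.1 + z.1) * d - d * (x.1 + z.1) = x.1 * d - d * x.1 + (z.1 * d - d * z.1)
        noncomm_ring
      map_smul' := fun c z => by
        apply Subtype.ext
        show (c • z.1) * d - d * (c • z.1) = c • (z.1 * d - d * z.1)
        rw [smul_mul_assoc, mul_smul_comm, smul_sub] }
  let A : D →L[𝕜] D := LinearMap.toContinuousLinearMap A0
  have hA : ∀ x : D, ((A x : D) : E) = x.1 * d - d * x.1 := fun x => rfl
  obtain ⟨z, hz0, hz⟩ := exists_flow A ⟨y, hy⟩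
  have hz' : ∀ t, HasDerivAt (fun t => ((z t : D) : E)) ((z t : E) * d - d * (z t : E)) t := by
    intro t
    have h1 := (D.subtypeL.hasFDerivAt (x := z t)).comp_hasDerivAt t (hz t)
    exact h1
  let φ : 𝕜 → E := fun t => exp (t • d) * (z t : E) * exp (-(t • d))
  have hφ : ∀ t, HasDerivAt φ 0 t := by
    intro t
    have h1 := ((hasDerivAt_exp_smul_const (𝕂 := 𝕜) d t).mul (hz' t)).mul (hasDerivAt_exp_neg d t)
    refine h1.congr_deriv ?_
    simp only [Pi.mul_apply]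
    generalize exp (t • d) = a
    generalize exp (-(t • d)) = b
    noncomm_ring
  have hc : φ t = φ 0 := is_const_of_deriv_eq_zero (fun t => (hφ t).differentiableAt)
    (fun t => (hφ t).deriv) t 0
  have h0 : φ 0 = y := by
    simp [φ, hz0]
  have h1 : exp (-(t • d)) * φ t * exp (t • d) = (z t : E) := by
    show exp (-(t • d)) * (exp (t • d) * (z t : E) * exp (-(t • d))) * exp (t • d) = _
    have e1 := exp_neg_mul_exp (𝕜 := 𝕜) (t • d)
    calc exp (-(t • d)) * (exp (t • d) * (z t : E) * exp (-(t • d))) * exp (t • d)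
        = (exp (-(t • d)) * exp (t • d)) * (z t : E) * (exp (-(t • d)) * exp (t • d)) := by
          noncomm_ring
      _ = _ := by rw [e1, one_mul, mul_one]
  rw [hc, h0] at h1
  rw [h1]
  exact (z t).2

end Exp

section Loc

variable {𝕜 : Type*} [RCLike 𝕜] {V : Type*} [NormedAddCommGroup V] [NormedSpace 𝕜 V]
  [FiniteDimensional 𝕜 V]

/-- The commutator of a local operator with an element of `D` is local. -/
theorem comm_local (D : Submodule 𝕜 (V →L[𝕜] V)) (hD : ∀ x ∈ D, ∀ y ∈ D, x * y - y * x ∈ D)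
    (T : V →L[𝕜] V) (hT : ∀ x, ∃ d ∈ D, T x = d x) {d : V →L[𝕜] V} (hd : d ∈ D) (x : V) :
    ∃ e ∈ D, T (d x) - d (T x) = e x := by
  have : CompleteSpace V := FiniteDimensional.complete 𝕜 V
  have : FiniteDimensional 𝕜 (V →L[𝕜] V) := inferInstance
  let W : Submodule 𝕜 V := D.map (ContinuousLinearMap.apply 𝕜 V x : (V →L[𝕜] V) →L[𝕜] V).toLinearMap
  have hW : ∀ v, v ∈ W ↔ ∃ e ∈ D, e x = v := fun v => Iff.rfl
  suffices h : T (d x) - d (T x) ∈ W by
    obtain ⟨e, he, h1⟩ := (hW _).1 h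
    exact ⟨e, he, h1.symm⟩
  have hWc : IsClosed (W : Set V) := W.closed_of_finiteDimensional
  let g : 𝕜 → V := fun t => exp (-(t • d)) (T (exp (t • d) x))
  have hg : ∀ t, g t ∈ W := by
    intro t
    obtain ⟨e, he, h1⟩ := hT (exp (t • d) x)
    rw [hW]
    refine ⟨exp (-(t • d)) * e * exp (t • d), conj_mem D d (fun y hy => ?_) he t, ?_⟩
    · exact hD y hy d hd
    · show exp (-(t • d)) (e (exp (t • d) x)) = _
      rw [← h1]
  have hder : HasDerivAt g (T (d x) - d (T x)) 0 := by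
    have h1 : HasDerivAt (fun u : 𝕜 => exp (u • d)) (d * exp ((0 : 𝕜) • d)) 0 :=
      hasDerivAt_exp_smul_const' (𝕂 := 𝕜) d 0
    have h2 := h1.clm_apply (hasDerivAt_const (0 : 𝕜) x)
    have h3 := (T.hasFDerivAt (x := exp ((0 : 𝕜) • d) x)).comp_hasDerivAt (0 : 𝕜) h2
    have h4 := (hasDerivAt_exp_neg (𝕜 := 𝕜) d 0).clm_apply h3
    refine h4.congr_deriv ?_
    simp
    abel
  rw [hasDerivAt_iff_tendsto_slope] at hder
  refine hWc.mem_of_tendsto hder ?_
  filter_upwards with t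
  rw [slope_def_module]
  exact W.smul_mem _ (W.sub_mem (hg t) (hg 0))

/-- The commutator of local operators is local. -/
theorem comm_local' (D : Submodule 𝕜 (V →L[𝕜] V)) (hD : ∀ x ∈ D, ∀ y ∈ D, x * y - y * x ∈ D)
    (S T : V →L[𝕜] V) (hS : ∀ x, ∃ d ∈ D, S x = d x) (hT : ∀ x, ∃ d ∈ D, T x = d x) (x : V) :
    ∃ e ∈ D, S (T x) - T (S x) = e x := by
  obtain ⟨d, hd, h1⟩ := hS x
  obtain ⟨d', hd', h2⟩ := hT x
  obtain ⟨e, he, h3⟩ := comm_local D hD S hS hd' x
  obtain ⟨e', he', h4⟩ := comm_local D hD T hT hd x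
  refine ⟨e - e' + (d' * d - d * d'), D.add_mem (D.sub_mem he he') (hD _ hd' _ hd), ?_⟩
  show _ = (e x - e' x) + (d' (d x) - d (d' x))
  rw [← h3, ← h4, h1, h2]
  abel

end Loc

/-! ## The algebraic version -/

section Alg

variable {𝕜 : Type*} [RCLike 𝕜] {A : Type*} [AddCommGroup A] [Module 𝕜 A] [FiniteDimensional 𝕜 A]

theorem comm_local_alg (D : Submodule 𝕜 (Module.End 𝕜 A))
    (hD : ∀ x ∈ D, ∀ y ∈ D, x * y - y * x ∈ D) (S T : Module.End 𝕜 A)
    (hS : ∀ x, ∃ d ∈ D, S x = d x) (hT : ∀ x, ∃ d ∈ D, T x = d x) (x : A) :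
    ∃ e ∈ D, S (T x) - T (S x) = e x := by
  let φ : A ≃ₗ[𝕜] (Fin (Module.finrank 𝕜 A) → 𝕜) := (Module.finBasis 𝕜 A).equivFun
  let c : Module.End 𝕜 A ≃ₗ[𝕜] Module.End 𝕜 (Fin (Module.finrank 𝕜 A) → 𝕜) :=
    LinearEquiv.conj φ
  let L : Module.End 𝕜 A ≃ₗ[𝕜] ((Fin (Module.finrank 𝕜 A) → 𝕜) →L[𝕜]
      (Fin (Module.finrank 𝕜 A) → 𝕜)) := c.trans LinearMap.toContinuousLinearMap
  have hL : ∀ (f : Module.End 𝕜 A) (v : Fin (Module.finrank 𝕜 A) → 𝕜),
      L f v = φ (f (φ.symm v)) := fun f v => rfl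
  have hmul : ∀ f g : Module.End 𝕜 A, L (f * g) = L f * L g := by
    intro f g
    ext1 v
    show L (f * g) v = L f (L g v)
    rw [hL, hL, hL, φ.symm_apply_apply]
    rfl
  let D' := D.map (L : Module.End 𝕜 A →ₗ[𝕜] ((Fin (Module.finrank 𝕜 A) → 𝕜) →L[𝕜]
      (Fin (Module.finrank 𝕜 A) → 𝕜)))
  have hD' : ∀ x ∈ D', ∀ y ∈ D', x * y - y * x ∈ D' := by
    rintro _ ⟨f, hf, rfl⟩ _ ⟨g, hg, rfl⟩
    refine ⟨f * g - g * f, hD f hf g hg, ?_⟩
    show L (f * g - g * f) = L f * L g - L g * L f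
    rw [map_sub, hmul, hmul]
  have hloc : ∀ S : Module.End 𝕜 A, (∀ x, ∃ d ∈ D, S x = d x) →
      ∀ v, ∃ d ∈ D', L S v = d v := by
    intro S hS v
    obtain ⟨d, hd, h⟩ := hS (φ.symm v)
    exact ⟨L d, ⟨d, hd, rfl⟩, by rw [hL, hL, h]⟩
  obtain ⟨e, ⟨f, hf, rfl⟩, h⟩ := comm_local' D' hD' (L S) (L T) (hloc S hS) (hloc T hT) (φ x)
  refine ⟨f, hf, ?_⟩
  have h' : L S (L T (φ x)) - L T (L S (φ x)) = L f (φ x) := h
  simp only [hL, φ.symm_apply_apply] at h'
  rw [← map_sub] at h'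
  exact φ.injective h'

end Alg

end Pool.Agent.Q117.LocD
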